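import Pool.Agent.K3h46.AS.Stm2

/-!
# AS2 brick LIN: eigenvectors are linearly independent
-/

set_option autoImplicit false

namespace Pool.Agent.K3h73.AS

open Pool.Agent.K3h46.AS

theorem t_LIN : S_LIN := by
  intro p hp V _ _ s G t ht hG hrel
  rw [Fintype.linearIndependent_iff]
  intro c hc i
  have key : ∀ S : Finset (Fin s), ∑ j, (c j * ∏ k ∈ S, (t j - t k)) • G j = 0 := by
    intro S
    induction S using Finset.induction_on with
    | empty => simpa using hc
    | insert a S ha ih =>
      have h1 := hrel _ ih
      have h2 : ∑ j, (c j * ∏ k ∈ insert a S, (t j - t k)) • G j =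
          ∑ j, ((c j * ∏ k ∈ S, (t j - t k)) * t j) • G j -
            t a • ∑ j, (c j * ∏ k ∈ S, (t j - t k)) • G j := by
        rw [Finset.smul_sum, ← Finset.sum_sub_distrib]
        refine Finset.sum_congr rfl fun j _ => ?_
        rw [Finset.prod_insert ha, smul_smul, ← sub_smul]
        congr 1
        ring
      rw [h2, h1, ih, smul_zero, sub_zero]
  have h := key (Finset.univ.erase i)
  rw [Finset.sum_eq_single i] at h
  · rcases smul_eq_zero.mp h with h1 | h1
    · rcases mul_eq_zero.mp h1 with h2 | h2
      · exact h2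
      · rw [Finset.prod_eq_zero_iff] at h2
        obtain ⟨k, hk, hk2⟩ := h2
        exact absurd (ht (sub_eq_zero.mp hk2)).symm (Finset.ne_of_mem_erase hk)
    · exact absurd h1 (hG i)
  · intro j _ hj
    rw [Finset.prod_eq_zero (Finset.mem_erase.mpr ⟨hj, Finset.mem_univ j⟩) (sub_self _), mul_zero,
      zero_smul]
  · intro h0
    exact absurd (Finset.mem_univ i) h0

end Pool.Agent.K3h73.AS
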