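import Pool.Agent.K3h46.AS.Stm2
import Pool.Agent.K3h46.AS.AN1
import Pool.Agent.K3h17.AS.HEN

/-!
# AS2 brick UNI: uniqueness of the point at infinity
-/

set_option autoImplicit false

namespace Pool.Agent.K3h73.AS

open Pool.Agent.K3h46.AS Pool.Agent.K3h46.AS.AN1

variable {κ : Type} [Field κ]

lemma LBsum {ι' : Type} (s : Finset ι') {l : ℤ} (z : ι' → LaurentSeries κ) (c : ι' → κ)
    (h : ∀ i ∈ s, LB l (z i) (c i)) : LB l (∑ i ∈ s, z i) (∑ i ∈ s, c i) := by
  classical
  induction s using Finset.induction_on with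
  | empty => simpa using LB.zero l
  | insert a s ha ih =>
    rw [Finset.sum_insert ha, Finset.sum_insert ha]
    exact (h a (Finset.mem_insert_self a s)).add
      (ih fun i hi => h i (Finset.mem_insert_of_mem hi))

lemma geom {l : ℤ} {x x' : LaurentSeries κ} {ξ : κ} (hx : LB l x ξ) (hx' : LB l x' ξ) (n : ℕ) :
    LB (n * l) (∑ j ∈ Finset.range (n + 1), x ^ j * x' ^ (n + 1 - 1 - j))
      (((n + 1 : ℕ) : κ) * ξ ^ n) := by
  have h1 := LBsum (Finset.range (n + 1)) (l := n * l)
    (fun j => x ^ j * x' ^ (n + 1 - 1 - j)) (fun _ => ξ ^ n) (by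
      intro j hj
      rw [Finset.mem_range] at hj
      have h2 := (hx.pow j).mul (hx'.pow (n + 1 - 1 - j))
      have e1 : (j : ℤ) * l + ((n + 1 - 1 - j : ℕ) : ℤ) * l = n * l := by
        rw [← add_mul]
        congr 1
        have : n + 1 - 1 - j + j = n := by omega
        omega
      have e2 : ξ ^ j * ξ ^ (n + 1 - 1 - j) = ξ ^ n := by
        rw [← pow_add]
        congr 1
        omega
      rw [e1, e2] at h2
      exact h2)
  rw [Finset.sum_const, Finset.card_range, nsmul_eq_mul] at h1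
  exact h1

theorem t_UNI : S_UNI := by
  intro p hp d F _ _ f hd hdp hf hl κ _ _ ι hι x x' hx hx'
  set φ : κ := ι (lead d f) with hφ
  have hφ0 : φ ≠ 0 := by
    rw [hφ]
    exact fun h => hl (hι (by rw [h, map_zero]))
  have hp1 : 2 ≤ p := hp.out.two_le
  have hdκ : (d : κ) ≠ 0 := by
    intro h
    rw [CharP.cast_eq_zero_iff κ p] at h
    have h1 : p ≤ d := Nat.le_of_dvd hd h
    have h2 : d ≤ p - 1 := Nat.le_of_dvd (by omega) hdp
    omega
  set ξ : κ := φ ^ ((p - 1) / d * (p + 1)) with hξ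
  have hξ0 : ξ ≠ 0 := pow_ne_zero _ hφ0
  have bx : LB (-(p : ℤ)) x ξ := ⟨hx.low, hx.top⟩
  have bx' : LB (-(p : ℤ)) x' ξ := ⟨hx'.low, hx'.top⟩
  obtain ⟨e, rfl⟩ : ∃ e, d = e + 1 := ⟨d - 1, by omega⟩
  set c : ℕ → κ := fun i => ι (dehom (MvPolynomial.homogeneousComponent i f)) with hc
  set Q : LaurentSeries κ := ∑ i ∈ Finset.range (e + 1 + 1),
    HahnSeries.C (c i) * ∑ j ∈ Finset.range i, x ^ j * x' ^ (i - 1 - j) with hQ
  have hprod : Q * (x - x') = 0 := by
    have h1 : ev ι x f - ev ι x' f = 0 := by rw [hx.eq, hx'.eq, sub_self]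
    rw [Pool.Agent.K3h17.AS.ev_sum ι x f (e + 1) hf,
      Pool.Agent.K3h17.AS.ev_sum ι x' f (e + 1) hf, ← Finset.sum_sub_distrib] at h1
    rw [← h1, hQ, Finset.sum_mul]
    refine Finset.sum_congr rfl fun i _ => ?_
    rw [mul_assoc, geom_sum₂_mul, mul_sub]
  have hQL : LB ((e : ℤ) * -(p : ℤ)) Q (φ * (((e + 1 : ℕ) : κ) * ξ ^ e)) := by
    have h1 := LBsum (Finset.range (e + 1 + 1)) (l := (e : ℤ) * -(p : ℤ))
      (fun i => HahnSeries.C (c i) * ∑ j ∈ Finset.range i, x ^ j * x' ^ (i - 1 - j))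
      (fun i => if i = e + 1 then φ * (((e + 1 : ℕ) : κ) * ξ ^ e) else 0) (by
        intro i hi
        rw [Finset.mem_range] at hi
        rcases Nat.eq_zero_or_pos i with h0 | h0
        · subst h0
          simp only [Finset.range_zero, Finset.sum_empty, mul_zero]
          rw [if_neg (by omega)]
          exact LB.zero _
        · obtain ⟨n, rfl⟩ : ∃ n, i = n + 1 := ⟨i - 1, by omega⟩
          have h2 := (geom bx bx' n).Cmul (c (n + 1))
          by_cases hn : n + 1 = e + 1
          · rw [if_pos hn]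
            have hn' : n = e := by omega
            subst hn'
            exact h2
          · rw [if_neg hn]
            refine h2.weak ?_
            have h3 : (n : ℤ) < e := by omega
            have h4 : (0 : ℤ) < p := by omega
            nlinarith)
    rw [Finset.sum_ite_eq' (Finset.range (e + 1 + 1)) (e + 1)] at h1
    rw [if_pos (Finset.mem_range.mpr (by omega))] at h1
    exact h1
  have hQ0 : Q ≠ 0 := by
    intro h
    have h1 := hQL.top
    rw [h] at h1
    exact mul_ne_zero hφ0 (mul_ne_zero hdκ (pow_ne_zero _ hξ0)) h1.symm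
  rcases mul_eq_zero.mp hprod with h | h
  · exact absurd h hQ0
  · exact sub_eq_zero.mp h

end Pool.Agent.K3h73.AS
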